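import Mathlib
import Pool.Agent.Lib.QCFT2.Defs
import Pool.Agent.Lib.QCFT.LocSq
import Pool.Agent.Lib.MP_ea3785_nt.WeakChebFrob

/-!
# Nonsplit primes of degree one, Chebotarev for involutions
-/

set_option autoImplicit false
set_option linter.unusedSectionVars false

namespace Pool.Agent.Lib.QCFT2

open IsDedekindDomain NumberField WithZero Pool.Agent.Lib.QCFT Pool.Agent.Lib.WeakCheb

section

variable {K : Type*} [Field K] [NumberField K]

lemma qn_eq_absNorm (v : HeightOneSpectrum (𝓞 K)) : qn v = v.asIdeal.absNorm := by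
  rw [qn, Ideal.absNorm_apply, Submodule.cardQuot_apply]

/-- a prime of prime norm is the kernel of a homomorphism to `ZMod p` -/
lemma exists_hom_of_absNorm {p : ℕ} (hp : p.Prime) (v : HeightOneSpectrum (𝓞 K))
    (hv : v.asIdeal.absNorm = p) : ∃ φ : 𝓞 K →+* ZMod p, RingHom.ker φ = v.asIdeal := by
  have hfin : Finite (𝓞 K ⧸ v.asIdeal) := by
    rw [← Ideal.absNorm_ne_zero_iff, hv]
    exact hp.ne_zero
  have := Fintype.ofFinite (𝓞 K ⧸ v.asIdeal)
  have hcard : Fintype.card (𝓞 K ⧸ v.asIdeal) = p := by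
    rw [← hv, Ideal.absNorm_apply, Submodule.cardQuot_apply, Nat.card_eq_fintype_card]
  let e := (ZMod.ringEquivOfPrime (𝓞 K ⧸ v.asIdeal) hp hcard).symm
  refine ⟨e.toRingHom.comp (Ideal.Quotient.mk v.asIdeal), ?_⟩
  ext x
  rw [RingHom.mem_ker, RingHom.comp_apply]
  change e (Ideal.Quotient.mk v.asIdeal x) = 0 ↔ _
  rw [map_eq_zero_iff _ e.injective, Ideal.Quotient.eq_zero_iff_mem]

/-- a set of primes with members of arbitrarily large norm is infinite -/
lemma infinite_of_large (S : Set (HeightOneSpectrum (𝓞 K)))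
    (h : ∀ N : ℕ, ∃ v ∈ S, N < qn v) : S.Infinite := by
  intro hfin
  obtain ⟨v, hv, hlt⟩ := h (hfin.toFinset.sup qn)
  have := Finset.le_sup (f := qn) (hfin.mem_toFinset.mpr hv)
  omega

end

theorem infinite_NSp_deg_one (M F : Type*) [Field M] [NumberField M] [Field F] [NumberField F]
    [Algebra M F] [Algebra.IsQuadraticExtension M F] :
    {v : HeightOneSpectrum (𝓞 M) | NSp F v ∧ (qn v).Prime}.Infinite := by
  classical
  apply infinite_of_large
  intro N
  obtain ⟨σ, hσ⟩ := exists_aut M F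
  obtain ⟨p, hp, hN, φ, hφ⟩ := exists_no_extension M F σ hσ N
  have hqn : qn (kerV M hp φ) = p := by
    rw [qn_eq_absNorm]
    exact absNorm_ker M hp φ
  refine ⟨kerV M hp φ, ⟨?_, by rw [hqn]; exact hp⟩, by rw [hqn]; exact hN⟩
  by_contra hns
  obtain ⟨s, hs, _, h2⟩ := exists_fiber (F := F) (kerV M hp φ)
  obtain ⟨hcard, hef⟩ := h2 hns
  obtain ⟨w, w', hne, hww⟩ := Finset.card_eq_two.mp hcard
  have hw : w ∈ s := by rw [hww]; simp
  have h3 : und M w = kerV M hp φ := (hs w).mp hw
  have h4 : w.asIdeal.absNorm = p := by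
    rw [absNorm_eq_of_ff M F (hef w hw).2, h3]
    exact absNorm_ker M hp φ
  obtain ⟨ψ, hψ⟩ := exists_hom_of_absNorm hp w h4
  apply hφ ψ
  apply ZMod.ringHom_eq_of_ker_eq
  have h5 : RingHom.ker φ = (und M w).asIdeal := by rw [h3]; rfl
  rw [h5]
  ext z
  rw [RingHom.mem_ker, RingHom.comp_apply, ← RingHom.mem_ker (f := ψ), hψ]
  rfl

/-- Chebotarev for involutions -/
theorem cheb_involution {M : Type*} [Field M] [NumberField M] [IsGalois ℚ M]
    (g : M ≃ₐ[ℚ] M) (hg : g * g = 1) :
    {v : HeightOneSpectrum (𝓞 ℚ) | ∃ w : HeightOneSpectrum (𝓞 M), und ℚ w = v ∧ II ℚ w = ⊥ ∧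
      IsFr ℚ w g}.Infinite := by
  classical
  apply infinite_of_large
  intro N
  -- elements moved by the automorphisms
  have hmove : ∀ s : M ≃ₐ[ℚ] M, s ≠ 1 → ∃ x : 𝓞 M, s (x : M) ≠ x := by
    intro s hs
    by_contra hall
    push Not at hall
    apply hs
    ext y
    obtain ⟨a, b, hb, rfl⟩ := IsFractionRing.div_surjective (A := 𝓞 M) y
    rw [map_div₀]
    change s (a : M) / s (b : M) = (a : M) / (b : M)
    rw [hall a, hall b]
  let γ : (M ≃ₐ[ℚ] M) → 𝓞 M →+* 𝓞 M := fun s => RingOfIntegers.mapRingHom (s : M →+* M)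
  have hγ : ∀ s (z : 𝓞 M), ((γ s z : 𝓞 M) : M) = s (z : M) := fun s z => rfl
  have hmove' : ∀ s : M ≃ₐ[ℚ] M, ∃ x : 𝓞 M, s ≠ 1 → γ s x - x ≠ 0 := by
    intro s
    by_cases hs : s = 1
    · exact ⟨0, fun h => absurd hs h⟩
    · obtain ⟨x, hx⟩ := hmove s hs
      refine ⟨x, fun _ h => hx ?_⟩
      rw [← hγ, sub_eq_zero.mp h]
  choose X hX using hmove'
  have hfin : Finite (M ≃ₐ[ℚ] M) := inferInstance
  have := Fintype.ofFinite (M ≃ₐ[ℚ] M)
  obtain ⟨p, hp, hN, Q, hQmax, hpQ, hfrob⟩ := exists_frob M g hg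
    (max N (Finset.univ.sup fun s => Ideal.absNorm (Ideal.span {γ s (X s) - X s})))
  have := Fact.mk hp
  have hN1 : N < p := lt_of_le_of_lt (le_max_left _ _) hN
  have hQ0 : Q ≠ ⊥ := by
    rintro rfl
    have h1 : ((p : ℕ) : 𝓞 M) = 0 := by simpa using hpQ
    exact hp.ne_zero (by exact_mod_cast h1)
  let w : HeightOneSpectrum (𝓞 M) := ⟨Q, hQmax.isPrime, hQ0⟩
  -- the residue field below has `p` elements
  have hqn : qn (und ℚ w) = p := by
    have hmem : ((p : ℕ) : 𝓞 ℚ) ∈ (und ℚ w).asIdeal := by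
      change algebraMap (𝓞 ℚ) (𝓞 M) ((p : ℕ) : 𝓞 ℚ) ∈ Q
      rw [map_natCast]
      exact hpQ
    have hdvd : (und ℚ w).asIdeal.absNorm ∣ p := by
      have h1 := Ideal.absNorm_dvd_absNorm_of_le ((Ideal.span_singleton_le_iff_mem _).mpr hmem)
      rw [Ideal.absNorm_span_natCast] at h1
      have h2 : Module.finrank ℤ (𝓞 ℚ) = 1 := by
        rw [RingOfIntegers.rank, Module.finrank_self]
      rwa [h2, pow_one] at h1
    rw [qn_eq_absNorm]
    rcases (Nat.dvd_prime hp).mp hdvd with h | h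
    · rw [Ideal.absNorm_eq_one_iff] at h
      exact absurd h (und ℚ w).isPrime.ne_top
    · exact h
  refine ⟨und ℚ w, ⟨w, rfl, ?_, ?_⟩, by rw [hqn]; exact hN1⟩
  · -- inertia is trivial
    rw [eq_bot_iff]
    rintro s ⟨_, hs⟩
    rw [Subgroup.mem_bot]
    by_contra hs1
    have h1 := hs (X s : M) (by
      exact HeightOneSpectrum.valuation_le_one _ _)
    have h2 : γ s (X s) - X s ∈ Q := by
      have h3 : w.valuation M (algebraMap (𝓞 M) M (γ s (X s) - X s)) < 1 := by
        rw [map_sub]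
        exact h1
      rwa [HeightOneSpectrum.valuation_lt_one_iff_mem] at h3
    have h3 := hX s hs1
    have h4 : Ideal.absNorm (Ideal.span {γ s (X s) - X s}) < p := by
      refine lt_of_le_of_lt ?_ hN
      exact (Finset.le_sup (f := fun s => Ideal.absNorm (Ideal.span {γ s (X s) - X s}))
        (Finset.mem_univ s)).trans (le_max_right _ _)
    -- the norm lies in `Q`
    have h5 : ((Ideal.absNorm (Ideal.span {γ s (X s) - X s}) : ℕ) : 𝓞 M) ∈ Q := by
      have h6 := Ideal.absNorm_mem (Ideal.span {γ s (X s) - X s})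
      rw [Ideal.mem_span_singleton'] at h6
      obtain ⟨t, ht⟩ := h6
      rw [← ht]
      exact Q.mul_mem_left _ h2
    have h6 : Ideal.absNorm (Ideal.span {γ s (X s) - X s}) ≠ 0 := by
      rw [ne_eq, Ideal.absNorm_eq_zero_iff, Ideal.span_singleton_eq_bot]
      exact h3
    have hcop : Nat.Coprime (Ideal.absNorm (Ideal.span {γ s (X s) - X s})) p :=
      ((Nat.Prime.coprime_iff_not_dvd hp).mpr fun h =>
        absurd (Nat.le_of_dvd (Nat.pos_of_ne_zero h6) h) (not_le.mpr h4)).symm
    have h7 : IsCoprime ((Ideal.absNorm (Ideal.span {γ s (X s) - X s}) : ℕ) : 𝓞 M)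
        ((p : ℕ) : 𝓞 M) := by
      have := (Nat.isCoprime_iff_coprime.mpr hcop).map (Int.castRingHom (𝓞 M))
      simpa using this
    obtain ⟨a, b, hab⟩ := h7
    apply hQmax.ne_top
    rw [Ideal.eq_top_iff_one, ← hab]
    exact Q.add_mem (Q.mul_mem_left _ h5) (Q.mul_mem_left _ hpQ)
  · have hfr : ∀ x : 𝓞 M, γ g x - x ^ p ∈ Q := fun x => hfrob x (γ g x) (hγ g x)
    have hgQ : ∀ x : 𝓞 M, γ g x ∈ Q ↔ x ∈ Q := by
      intro x
      have h1 := hfr x
      constructor
      · intro h
        have h2 : x ^ p ∈ Q := by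
          have := Q.sub_mem h h1
          simpa using this
        exact hQmax.isPrime.mem_of_pow_mem p h2
      · intro h
        have h2 : x ^ p ∈ Q := Ideal.pow_mem_of_mem Q h p hp.pos
        have := Q.add_mem h1 h2
        simpa using this
    refine ⟨?_, ?_⟩
    · apply HeightOneSpectrum.ext
      ext x
      rw [mem_sp]
      have h1 := hgQ (RingOfIntegers.mapRingEquiv g.toRingEquiv.symm x)
      have h2 : γ g (RingOfIntegers.mapRingEquiv g.toRingEquiv.symm x) = x := by
        apply RingOfIntegers.ext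
        rw [hγ]
        exact g.apply_symm_apply _
      rw [h2] at h1
      exact h1.symm
    · intro x hx
      rw [hqn]
      obtain ⟨r, hr⟩ := w.exists_valuation_sub_lt_of_integer hx 1
      rw [Units.val_one] at hr
      have hr1 : w.valuation M (algebraMap (𝓞 M) M r) ≤ 1 :=
        HeightOneSpectrum.valuation_le_one _ _
      have hsp : sp g w = w := by
        apply HeightOneSpectrum.ext
        ext x
        rw [mem_sp]
        have h1 := hgQ (RingOfIntegers.mapRingEquiv g.toRingEquiv.symm x)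
        have h2 : γ g (RingOfIntegers.mapRingEquiv g.toRingEquiv.symm x) = x := by
          apply RingOfIntegers.ext
          rw [hγ]
          exact g.apply_symm_apply _
        rw [h2] at h1
        exact h1.symm
      have e1 : w.valuation M (g (algebraMap (𝓞 M) M r) - (algebraMap (𝓞 M) M r) ^ p) < 1 := by
        have h3 : w.valuation M (algebraMap (𝓞 M) M (γ g r - r ^ p)) < 1 := by
          rw [HeightOneSpectrum.valuation_lt_one_iff_mem]
          exact hfr r
        rw [map_sub, map_pow] at h3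
        exact h3
      have e2 : w.valuation M (g (x - algebraMap (𝓞 M) M r)) < 1 := by
        rw [val_of_sp hsp, ← Valuation.map_neg, neg_sub]
        exact hr
      have e3 : w.valuation M ((algebraMap (𝓞 M) M r) ^ p - x ^ p) < 1 := by
        rw [← (Commute.all (algebraMap (𝓞 M) M r) x).geom_sum₂_mul p, map_mul]
        have e5 : w.valuation M (∑ i ∈ Finset.range p,
            (algebraMap (𝓞 M) M r) ^ i * x ^ (p - 1 - i)) ≤ 1 := by
          refine Valuation.map_sum_le _ fun i _ => ?_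
          rw [map_mul, map_pow, map_pow]
          exact mul_le_one' (pow_le_one' hr1 _) (pow_le_one' hx _)
        calc _ ≤ 1 * w.valuation M (algebraMap (𝓞 M) M r - x) := mul_le_mul_left e5 _
          _ < 1 := by rw [one_mul]; exact hr
      have e4 : g x - x ^ p = (g (algebraMap (𝓞 M) M r) - (algebraMap (𝓞 M) M r) ^ p) +
          (g (x - algebraMap (𝓞 M) M r) + ((algebraMap (𝓞 M) M r) ^ p - x ^ p)) := by
        rw [map_sub]
        ring
      rw [e4]
      exact lt_of_le_of_lt (Valuation.map_add _ _ _)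
        (max_lt e1 (lt_of_le_of_lt (Valuation.map_add _ _ _) (max_lt e2 e3)))

end Pool.Agent.Lib.QCFT2
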